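import Mathlib

/-!
# MP_95a718_co (Graffiti.pc, 2006)

Every connected graph `G` with at least two vertices and `L(G) ≤ δ'(G) + 1` has a Hamiltonian
path, where `L(G)` is the maximum number of leaves of a spanning tree and `δ'(G)` the second
smallest entry of the degree sequence.
-/

namespace Pool.Agent.Results.MP_95a718_co.Graffiti

universe u

/-! ## Definitions used in the statement -/

/-- The degree sequence `d_1 ≥ d_2 ≥ ... ≥ d_n` of `G`, as a list. -/
noncomputable def degSeq {V : Type u} [Fintype V] (G : SimpleGraph V) : List ℕ := by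
  classical exact (Finset.univ.val.map (fun v => G.degree v)).sort (· ≥ ·)

/-- `δ'(G) = d_{n-1}`: the second-to-last entry of the degree sequence
(its index is `n - 2` when counting from `0`). -/
noncomputable def secondMinDegree {V : Type u} [Fintype V] (G : SimpleGraph V) : ℕ :=
  (degSeq G).getD (Fintype.card V - 2) 0

/-- The number of leaves (vertices with exactly one neighbour) of `T`. -/
noncomputable def numLeaves {V : Type u} (T : SimpleGraph V) : ℕ :=
  {v : V | (T.neighborSet v).ncard = 1}.ncard

/-- The leaf number `L(G)`: the largest number of leaves in a spanning tree of `G`. -/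
noncomputable def leafNumber {V : Type u} (G : SimpleGraph V) : ℕ :=
  sSup {l : ℕ | ∃ T : SimpleGraph V, T ≤ G ∧ T.IsTree ∧ numLeaves T = l}

/-! ## Auxiliary notions -/

variable {V : Type u}

/-- `p 0, ..., p (m-1)` is a path with `m` vertices inside `U`. -/
def PathIn (G : SimpleGraph V) (U : Finset V) (m : ℕ) (p : ℕ → V) : Prop :=
  (∀ i, i < m → p i ∈ U) ∧ (∀ i j, i < m → j < m → p i = p j → i = j) ∧
    (∀ i, i + 1 < m → G.Adj (p i) (p (i + 1)))

/-- A rooted connected set `W` (with a height function) and a set `S` of vertices outside `W`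
with neighbours in `W`. -/
def Cert (G : SimpleGraph V) (W S : Finset V) : Prop :=
  Disjoint W S ∧ (∀ s ∈ S, ∃ u ∈ W, G.Adj s u) ∧
    ∃ r ∈ W, ∃ h : V → ℕ, ∀ v ∈ W, v ≠ r → ∃ u ∈ W, G.Adj v u ∧ h u < h v

/-- Connectedness of `G[U]` in terms of cuts. -/
def ConnIn (G : SimpleGraph V) (U : Finset V) : Prop :=
  ∀ X : Finset V, X ⊆ U → X.Nonempty → X ≠ U → ∃ a ∈ X, ∃ b ∈ U, b ∉ X ∧ G.Adj a b

lemma PathIn.rev {G : SimpleGraph V} {U : Finset V} {m : ℕ} {p : ℕ → V} (h : PathIn G U m p) :
    PathIn G U m (fun i => p (m - 1 - i)) := by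
  obtain ⟨h1, h2, h3⟩ := h
  refine ⟨fun i hi => h1 _ (by omega), fun i j hi hj hij => ?_, fun i hi => ?_⟩
  · have := h2 _ _ (by omega) (by omega) hij
    omega
  · have := h3 (m - 1 - (i + 1)) (by omega)
    have e : m - 1 - (i + 1) + 1 = m - 1 - i := by omega
    rw [e] at this
    exact this.symm

lemma PathIn.rot {G : SimpleGraph V} {U : Finset V} {m : ℕ} {p : ℕ → V} (h : PathIn G U m p)
    {j : ℕ} (_hj1 : 1 ≤ j) (hjm : j < m) (hadj : G.Adj (p 0) (p j)) :
    PathIn G U m (fun i => if i < j then p (j - 1 - i) else p i) := by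
  obtain ⟨h1, h2, h3⟩ := h
  refine ⟨fun i hi => ?_, fun i k hi hk hik => ?_, fun i hi => ?_⟩
  · dsimp only
    split_ifs
    · exact h1 _ (by omega)
    · exact h1 _ (by omega)
  · dsimp only at hik
    split_ifs at hik with ha hb hb
    · have := h2 _ _ (by omega) (by omega) hik; omega
    · have := h2 _ _ (by omega) (by omega) hik; omega
    · have := h2 _ _ (by omega) (by omega) hik; omega
    · exact h2 _ _ (by omega) (by omega) hik
  · dsimp only
    split_ifs with ha hb hb
    · have := h3 (j - 1 - (i + 1)) (by omega)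
      have e : j - 1 - (i + 1) + 1 = j - 1 - i := by omega
      rw [e] at this
      exact this.symm
    · have e1 : j - 1 - i = 0 := by omega
      have e2 : i + 1 = j := by omega
      rw [e1, e2]; exact hadj
    · omega
    · exact h3 i hi

lemma PathIn.cons {G : SimpleGraph V} {U : Finset V} {m : ℕ} {p : ℕ → V} (h : PathIn G U m p)
    {w : V} (hwU : w ∈ U) (hw : ∀ i, i < m → p i ≠ w) (hadj : G.Adj w (p 0)) :
    PathIn G U (m + 1) (fun i => if i = 0 then w else p (i - 1)) := by
  obtain ⟨h1, h2, h3⟩ := h
  refine ⟨fun i hi => ?_, fun i k hi hk hik => ?_, fun i hi => ?_⟩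
  · dsimp only
    split_ifs
    · exact hwU
    · exact h1 _ (by omega)
  · dsimp only at hik
    split_ifs at hik with ha hb hb
    · omega
    · exact absurd hik.symm (hw _ (by omega))
    · exact absurd hik (hw _ (by omega))
    · have := h2 _ _ (by omega) (by omega) hik; omega
  · rcases Nat.eq_zero_or_pos i with rfl | ha
    · simpa using hadj
    · have := h3 (i - 1) (by omega)
      have e : i - 1 + 1 = i + 1 - 1 := by omega
      rw [e] at this
      dsimp only
      rw [if_neg (by omega), if_neg (by omega)]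
      exact this

lemma PathIn.cyc {G : SimpleGraph V} {U : Finset V} {m : ℕ} {p : ℕ → V} (h : PathIn G U m p)
    (hc : G.Adj (p (m - 1)) (p 0)) {a : ℕ} (ha : a < m) :
    PathIn G U m (fun i => if a + i < m then p (a + i) else p (a + i - m)) := by
  obtain ⟨h1, h2, h3⟩ := h
  refine ⟨fun i hi => ?_, fun i k hi hk hik => ?_, fun i hi => ?_⟩
  · dsimp only
    split_ifs
    · exact h1 _ (by omega)
    · exact h1 _ (by omega)
  · dsimp only at hik
    split_ifs at hik with hb hd hd
    · have := h2 _ _ (by omega) (by omega) hik; omega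
    · have := h2 _ _ (by omega) (by omega) hik; omega
    · have := h2 _ _ (by omega) (by omega) hik; omega
    · have := h2 _ _ (by omega) (by omega) hik; omega
  · dsimp only
    split_ifs with hb hd hd
    · have := h3 (a + i) (by omega)
      have e : a + i + 1 = a + (i + 1) := by omega
      rw [e] at this
      exact this
    · have e1 : a + i = m - 1 := by omega
      have e2 : a + (i + 1) - m = 0 := by omega
      rw [e1, e2]; exact hc
    · omega
    · have := h3 (a + i - m) (by omega)
      have e : a + i - m + 1 = a + (i + 1) - m := by omega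
      rw [e] at this
      exact this

/-- no path with one more vertex -/
def Longest (G : SimpleGraph V) (U : Finset V) (m : ℕ) : Prop := ∀ q, ¬ PathIn G U (m + 1) q

section
variable {G : SimpleGraph V} {U : Finset V} {m : ℕ} {p : ℕ → V}

lemma no_adj_head (h : PathIn G U m p) (hmax : Longest G U m) {w : V} (hwU : w ∈ U)
    (hw : ∀ i, i < m → p i ≠ w) : ¬ G.Adj w (p 0) := fun hadj =>
  hmax _ (h.cons hwU hw hadj)

lemma no_adj_last (h : PathIn G U m p) (hmax : Longest G U m) {w : V} (hwU : w ∈ U)
    (hw : ∀ i, i < m → p i ≠ w) : ¬ G.Adj w (p (m - 1)) := by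
  intro hadj
  refine no_adj_head h.rev hmax hwU (fun i hi => hw _ (by omega)) ?_
  simpa using hadj

lemma no_rot (h : PathIn G U m p) (hmax : Longest G U m) {w : V} (hwU : w ∈ U)
    (hw : ∀ i, i < m → p i ≠ w) {j : ℕ} (hj1 : 1 ≤ j) (hjm : j < m)
    (hadj : G.Adj (p 0) (p j)) : ¬ G.Adj w (p (j - 1)) := by
  intro hwj
  refine no_adj_head (h.rot hj1 hjm hadj) hmax hwU (fun i hi => ?_) ?_
  · split_ifs
    · exact hw _ (by omega)
    · exact hw _ (by omega)
  · rw [if_pos (by omega)]
    simpa using hwj

lemma no_cyc (h : PathIn G U m p) (hmax : Longest G U m) {w : V} (hwU : w ∈ U)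
    (hw : ∀ i, i < m → p i ≠ w) {a : ℕ} (ha : a < m) (hwa : G.Adj w (p a)) :
    ¬ G.Adj (p (m - 1)) (p 0) := by
  intro hc
  refine no_adj_head (h.cyc hc ha) hmax hwU (fun i hi => ?_) ?_
  · split_ifs
    · exact hw _ (by omega)
    · exact hw _ (by omega)
  · simpa [ha] using hwa

lemma no_cross (h : PathIn G U m p) (hmax : Longest G U m) {w : V} (hwU : w ∈ U)
    (hw : ∀ i, i < m → p i ≠ w) {a : ℕ} (ha : a < m) (hwa : G.Adj w (p a))
    {j : ℕ} (hj1 : 1 ≤ j) (hjm : j < m) (hadj : G.Adj (p 0) (p j)) :
    ¬ G.Adj (p (m - 1)) (p (j - 1)) := by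
  intro hy
  have hw' : ∀ i, i < m → (fun i => if i < j then p (j - 1 - i) else p i) i ≠ w := by
    intro i hi
    dsimp only
    split_ifs
    · exact hw _ (by omega)
    · exact hw _ (by omega)
  by_cases haj : a < j
  · refine no_cyc (h.rot hj1 hjm hadj) hmax hwU hw' (a := j - 1 - a) (by omega) ?_ ?_
    · rw [if_pos (by omega)]
      have e : j - 1 - (j - 1 - a) = a := by omega
      rw [e]; exact hwa
    · rw [if_neg (by omega), if_pos (by omega)]
      simpa using hy
  · refine no_cyc (h.rot hj1 hjm hadj) hmax hwU hw' (a := a) ha ?_ ?_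
    · rw [if_neg haj]; exact hwa
    · rw [if_neg (by omega), if_pos (by omega)]
      simpa using hy

lemma last_nbr (h : PathIn G U m p) (hmax : Longest G U m) {u : V} (hu : u ∈ U)
    (hadj : G.Adj (p (m - 1)) u) : ∃ c, c < m ∧ p c = u := by
  by_contra hcon
  push Not at hcon
  exact no_adj_last h hmax hu hcon hadj.symm

lemma head_nbr (h : PathIn G U m p) (hmax : Longest G U m) {u : V} (hu : u ∈ U)
    (hadj : G.Adj (p 0) u) : ∃ c, c < m ∧ p c = u := by
  by_contra hcon
  push Not at hcon
  exact no_adj_head h hmax hu hcon hadj.symm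

open Classical in
/-- degree inside `U` -/
noncomputable def dg (G : SimpleGraph V) (U : Finset V) (v : V) : ℕ := (U.filter (G.Adj v)).card

lemma second_nbr (h : PathIn G U m p) (hmax : Longest G U m) (hd : 2 ≤ dg G U (p (m - 1))) :
    ∃ c, c < m ∧ c ≠ m - 2 ∧ G.Adj (p (m - 1)) (p c) := by
  classical
  unfold dg at hd
  obtain ⟨u, hu, hne⟩ := Finset.exists_mem_ne (s := U.filter (G.Adj (p (m - 1)))) (by omega)
    (p (m - 2))
  rw [Finset.mem_filter] at hu
  obtain ⟨c, hc, rfl⟩ := last_nbr h hmax hu.1 hu.2
  exact ⟨c, hc, fun e => hne (by rw [e]), hu.2⟩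

/-- The core construction. -/
lemma core (h : PathIn G U m p) (hm : 3 ≤ m) (hmax : Longest G U m) {w : V} (hwU : w ∈ U)
    (hw : ∀ i, i < m → p i ≠ w) {a : ℕ} (ha : a < m) (hwa : G.Adj w (p a)) (ha2 : a ≠ m - 2)
    {c : ℕ} (hc : c < m) (hyc : G.Adj (p (m - 1)) (p c)) (hc2 : c ≠ m - 2) :
    ∃ W S : Finset V, Cert G W S ∧ dg G U (p 0) + 2 ≤ S.card := by
  classical
  obtain ⟨h1, h2, h3⟩ := id h
  have ha1 : a ≠ m - 1 := by
    rintro rfl
    exact no_adj_last h hmax hwU hw hwa
  have hxy : ¬ G.Adj (p (m - 1)) (p 0) := no_cyc h hmax hwU hw ha hwa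
  set J : Finset ℕ := (Finset.range m).filter (fun j => 2 ≤ j ∧ G.Adj (p 0) (p j)) with hJ
  have hJmem : ∀ j, j ∈ J ↔ j < m ∧ 2 ≤ j ∧ G.Adj (p 0) (p j) := by
    intro j; simp [hJ]
  have hJm1 : m - 1 ∉ J := by
    rw [hJmem]
    rintro ⟨_, _, h'⟩
    exact hxy h'.symm
  set S0 : Finset V := J.image (fun j => p (j - 1)) with hS0
  set W : Finset V := ((Finset.range (m - 2)).filter (fun i => i + 1 ∉ J)).image p with hW
  have hWmem : ∀ v, v ∈ W ↔ ∃ i, i < m - 2 ∧ i + 1 ∉ J ∧ p i = v := by
    intro v
    simp only [hW, Finset.mem_image, Finset.mem_filter, Finset.mem_range, and_assoc]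
  have hS0mem : ∀ v, v ∈ S0 ↔ ∃ j ∈ J, p (j - 1) = v := by
    intro v; simp [hS0]
  have hS0card : S0.card = J.card := by
    apply Finset.card_image_of_injOn
    intro i hi j hj hij
    have hi' := (hJmem i).1 hi
    have hj' := (hJmem j).1 hj
    have := h2 _ _ (by omega) (by omega) hij
    omega
  have hdeg : dg G U (p 0) ≤ J.card + 1 := by
    unfold dg
    have hsub : U.filter (G.Adj (p 0)) ⊆ insert (p 1) (J.image p) := by
      intro u hu
      rw [Finset.mem_filter] at hu
      obtain ⟨j, hj, rfl⟩ := head_nbr h hmax hu.1 hu.2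
      rw [Finset.mem_insert, Finset.mem_image]
      by_cases hj1 : j = 1
      · left; rw [hj1]
      · right
        refine ⟨j, (hJmem j).2 ⟨hj, ?_, hu.2⟩, rfl⟩
        have : j ≠ 0 := by
          rintro rfl
          exact G.loopless.irrefl _ hu.2
        omega
    refine (Finset.card_le_card hsub).trans ((Finset.card_insert_le _ _).trans ?_)
    have := Finset.card_image_le (s := J) (f := p)
    omega
  have hp0W : p 0 ∈ W := (hWmem _).2 ⟨0, by omega, by rw [hJmem]; omega, rfl⟩
  refine ⟨W, insert w (insert (p (m - 1)) (insert (p (m - 2)) S0)), ⟨?_, ?_, ?_⟩, ?_⟩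
  · rw [Finset.disjoint_left]
    intro v hv hvS
    obtain ⟨i, hi, hiJ, rfl⟩ := (hWmem _).1 hv
    simp only [Finset.mem_insert] at hvS
    rcases hvS with h' | h' | h' | h'
    · exact hw i (by omega) h'
    · have := h2 _ _ (by omega) (by omega) h'; omega
    · have := h2 _ _ (by omega) (by omega) h'; omega
    · obtain ⟨j, hj, hji⟩ := (hS0mem _).1 h'
      have hj' := (hJmem j).1 hj
      have := h2 _ _ (by omega) (by omega) hji
      apply hiJ
      have e : i + 1 = j := by omega
      rw [e]; exact hj
  · -- helper: every `p l` with `1 ≤ l ≤ m - 2` has a neighbour in `W`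
    have key : ∀ l, 1 ≤ l → l ≤ m - 2 → ∃ u ∈ W, G.Adj (p l) u := by
      intro l hl1 hl2
      by_cases hlJ : l ∈ J
      · exact ⟨p 0, hp0W, ((hJmem l).1 hlJ).2.2.symm⟩
      · by_cases hl : l = 1
        · subst hl
          exact ⟨p 0, hp0W, (h3 0 (by omega)).symm⟩
        · refine ⟨p (l - 1), (hWmem _).2 ⟨l - 1, by omega, ?_, rfl⟩, ?_⟩
          · have e : l - 1 + 1 = l := by omega
            rw [e]; exact hlJ
          · have := h3 (l - 1) (by omega)
            have e : l - 1 + 1 = l := by omega
            rw [e] at this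
            exact this.symm
    intro s hs
    simp only [Finset.mem_insert] at hs
    rcases hs with rfl | rfl | rfl | hs
    · refine ⟨p a, (hWmem _).2 ⟨a, by omega, ?_, rfl⟩, hwa⟩
      intro haJ
      have haJ' := (hJmem _).1 haJ
      have := no_rot h hmax hwU hw (j := a + 1) (by omega) haJ'.1 haJ'.2.2
      exact this (by simpa using hwa)
    · refine ⟨p c, (hWmem _).2 ⟨c, ?_, ?_, rfl⟩, hyc⟩
      · have : c ≠ m - 1 := by
          rintro rfl
          exact G.loopless.irrefl _ hyc
        omega
      · intro hcJ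
        have hcJ' := (hJmem _).1 hcJ
        have := no_cross h hmax hwU hw ha hwa (j := c + 1) (by omega) hcJ'.1 hcJ'.2.2
        exact this (by simpa using hyc)
    · exact key (m - 2) (by omega) le_rfl
    · obtain ⟨j, hj, rfl⟩ := (hS0mem _).1 hs
      have hj' := (hJmem j).1 hj
      have hjm : j ≠ m - 1 := fun e => hJm1 (e ▸ hj)
      exact key (j - 1) (by omega) (by omega)
  · refine ⟨p 0, hp0W, ?_⟩
    -- height: the index
    have hex : ∃ hgt : V → ℕ, ∀ i, i < m → hgt (p i) = i := by
      refine ⟨fun v => if hv : ∃ i, i < m ∧ p i = v then hv.choose else 0, ?_⟩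
      intro i hi
      have hv : ∃ k, k < m ∧ p k = p i := ⟨i, hi, rfl⟩
      dsimp only
      rw [dif_pos hv]
      exact h2 _ _ hv.choose_spec.1 hi hv.choose_spec.2
    obtain ⟨hgt, hhgt⟩ := hex
    refine ⟨hgt, ?_⟩
    intro v hv hv0
    obtain ⟨i, hi, hiJ, rfl⟩ := (hWmem _).1 hv
    have hi0 : i ≠ 0 := by rintro rfl; exact hv0 rfl
    by_cases hiJ' : i ∈ J
    · refine ⟨p 0, hp0W, ((hJmem i).1 hiJ').2.2.symm, ?_⟩
      rw [hhgt 0 (by omega), hhgt i (by omega)]
      omega
    · refine ⟨p (i - 1), (hWmem _).2 ⟨i - 1, by omega, ?_, rfl⟩, ?_, ?_⟩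
      · have e : i - 1 + 1 = i := by omega
        rw [e]; exact hiJ'
      · have := h3 (i - 1) (by omega)
        have e : i - 1 + 1 = i := by omega
        rw [e] at this
        exact this.symm
      · rw [hhgt (i - 1) (by omega), hhgt i (by omega)]
        omega
  · have hn1 : p (m - 2) ∉ S0 := by
      intro hmem
      obtain ⟨j, hj, hjj⟩ := (hS0mem _).1 hmem
      have hj' := (hJmem j).1 hj
      have := h2 _ _ (by omega) (by omega) hjj
      apply hJm1
      have e : m - 1 = j := by omega
      rw [e]; exact hj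
    have hn2 : p (m - 1) ∉ insert (p (m - 2)) S0 := by
      intro hmem
      rw [Finset.mem_insert] at hmem
      rcases hmem with h' | h'
      · have := h2 _ _ (by omega) (by omega) h'; omega
      · obtain ⟨j, hj, hjj⟩ := (hS0mem _).1 h'
        have hj' := (hJmem j).1 hj
        have := h2 _ _ (by omega) (by omega) hjj
        omega
    have hn3 : w ∉ insert (p (m - 1)) (insert (p (m - 2)) S0) := by
      intro hmem
      simp only [Finset.mem_insert] at hmem
      rcases hmem with h' | h' | h'
      · exact hw _ (by omega) h'.symm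
      · exact hw _ (by omega) h'.symm
      · obtain ⟨j, hj, hjj⟩ := (hS0mem _).1 h'
        have hj' := (hJmem j).1 hj
        exact hw _ (by omega) hjj
    rw [Finset.card_insert_of_notMem hn3, Finset.card_insert_of_notMem hn2,
      Finset.card_insert_of_notMem hn1, hS0card]
    omega

/-- the second endpoint version, when both endpoints have degree at least two -/
lemma lemmaB (h : PathIn G U m p) (hmax : Longest G U m) {w : V} (hwU : w ∈ U)
    (hw : ∀ i, i < m → p i ≠ w) {a : ℕ} (ha : a < m) (hwa : G.Adj w (p a)) {k : ℕ} (hk : 2 ≤ k)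
    (hd1 : k ≤ dg G U (p 0)) (hd2 : k ≤ dg G U (p (m - 1))) :
    ∃ W S : Finset V, Cert G W S ∧ k + 2 ≤ S.card := by
  have ha0 : a ≠ 0 := by
    rintro rfl
    exact no_adj_head h hmax hwU hw hwa
  have ha1 : a ≠ m - 1 := by
    rintro rfl
    exact no_adj_last h hmax hwU hw hwa
  have hm : 3 ≤ m := by omega
  have hxy : ¬ G.Adj (p (m - 1)) (p 0) := no_cyc h hmax hwU hw ha hwa
  by_cases ha2 : a = m - 2
  · have hr := h.rev
    obtain ⟨c, hc, hc2, hyc⟩ := second_nbr hr hmax (by
      rw [Nat.sub_self]; omega)
    have hm3 : m ≠ 3 := by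
      rintro rfl
      -- `c ∈ {0, 2}`
      have hc' : c = 0 ∨ c = 2 := by omega
      rcases hc' with rfl | rfl
      · exact hxy (by simpa using hyc.symm)
      · exact G.loopless.irrefl _ hyc
    obtain ⟨W, S, hWS, hS⟩ := core hr hm hmax hwU (fun i hi => hw _ (by omega))
      (a := m - 1 - a) (by omega) (by
        have e : m - 1 - (m - 1 - a) = a := by omega
        simpa [e] using hwa) (by omega) hc hyc hc2
    rw [Nat.sub_zero] at hS
    exact ⟨W, S, hWS, by omega⟩
  · obtain ⟨c, hc, hc2, hyc⟩ := second_nbr h hmax (by omega)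
    obtain ⟨W, S, hWS, hS⟩ := core h hm hmax hwU hw ha hwa ha2 hc hyc hc2
    exact ⟨W, S, hWS, by omega⟩

/-- all degrees at least two: any longest path endpoint works -/
lemma lemmaA (h : PathIn G U m p) (hmax : Longest G U m) {w : V} (hwU : w ∈ U)
    (hw : ∀ i, i < m → p i ≠ w) {a : ℕ} (ha : a < m) (hwa : G.Adj w (p a))
    (hd : ∀ v ∈ U, 2 ≤ dg G U v) :
    ∃ W S : Finset V, Cert G W S ∧ dg G U (p 0) + 2 ≤ S.card := by
  have ha0 : a ≠ 0 := by
    rintro rfl
    exact no_adj_head h hmax hwU hw hwa
  have ha1 : a ≠ m - 1 := by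
    rintro rfl
    exact no_adj_last h hmax hwU hw hwa
  have hm : 3 ≤ m := by omega
  obtain ⟨c, hc, hc2, hyc⟩ := second_nbr h hmax (hd _ (h.1 _ (by omega)))
  by_cases ha2 : a = m - 2
  · obtain ⟨h1, h2, h3⟩ := id h
    set q : ℕ → V := fun i => if i = m - 1 then w else p i with hq
    have hqp : ∀ i, i ≠ m - 1 → q i = p i := fun i hi => by simp [hq, hi]
    have hqw : q (m - 1) = w := by simp [hq]
    have hqP : PathIn G U m q := by
      refine ⟨fun i hi => ?_, fun i j hi hj hij => ?_, fun i hi => ?_⟩
      · by_cases e : i = m - 1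
        · rw [e, hqw]; exact hwU
        · rw [hqp i e]; exact h1 _ hi
      · by_cases e : i = m - 1
        · by_cases e' : j = m - 1
          · omega
          · rw [e, hqw, hqp j e'] at hij
            exact absurd hij.symm (hw _ hj)
        · by_cases e' : j = m - 1
          · rw [e', hqw, hqp i e] at hij
            exact absurd hij (hw _ hi)
          · rw [hqp i e, hqp j e'] at hij
            exact h2 _ _ hi hj hij
      · by_cases e : i + 1 = m - 1
        · rw [e, hqw, hqp i (by omega)]
          have e2 : i = m - 2 := by omega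
          rw [e2, ← ha2]; exact hwa.symm
        · rw [hqp (i + 1) e, hqp i (by omega)]
          exact h3 i hi
    have hcm1 : c ≠ m - 1 := by
      rintro rfl
      exact G.loopless.irrefl _ hyc
    obtain ⟨c', hc', hc'2, hwc'⟩ := second_nbr hqP hmax (hd _ (by rw [hqw]; exact hwU))
    obtain ⟨W, S, hWS, hS⟩ := core hqP hm hmax (w := p (m - 1)) (h1 _ (by omega))
      (fun i hi => by
        by_cases e : i = m - 1
        · rw [e, hqw]; exact (hw _ (by omega)).symm
        · rw [hqp i e]
          intro e'
          exact e (h2 _ _ hi (by omega) e'))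
      (a := c) hc (by rw [hqp c hcm1]; exact hyc) hc2 hc' hwc' hc'2
    rw [hqp 0 (by omega)] at hS
    exact ⟨W, S, hWS, hS⟩
  · exact core h hm hmax hwU hw ha hwa ha2 hc hyc hc2

lemma PathIn.mono {U' : Finset V} (h : PathIn G U m p) (hU : U ⊆ U') : PathIn G U' m p :=
  ⟨fun i hi => hU (h.1 i hi), h.2.1, h.2.2⟩

lemma PathIn.card_le (h : PathIn G U m p) : m ≤ U.card := by
  classical
  have : ((Finset.range m).image p).card = m := by
    rw [Finset.card_image_of_injOn, Finset.card_range]
    intro i hi j hj hij
    exact h.2.1 i j (by simpa using hi) (by simpa using hj) hij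
  rw [← this]
  apply Finset.card_le_card
  intro v hv
  rw [Finset.mem_image] at hv
  obtain ⟨i, hi, rfl⟩ := hv
  exact h.1 i (by simpa using hi)

/-- existence of a longest path, when there is no Hamiltonian path -/
lemma exists_longest (hne : U.Nonempty) (hno : ∀ q, ¬ PathIn G U U.card q) :
    ∃ m p, PathIn G U m p ∧ Longest G U m ∧ 1 ≤ m ∧ m < U.card := by
  classical
  have hex : ∃ n, (∀ q, ¬ PathIn G U n q) := ⟨_, hno⟩
  set n := Nat.find hex with hn
  have hn1 : ∀ q, ¬ PathIn G U n q := Nat.find_spec hex
  have hn2 : n ≤ U.card := Nat.find_min' hex hno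
  obtain ⟨v, hv⟩ := hne
  have hone : PathIn G U 1 (fun _ => v) := by
    refine ⟨fun _ _ => hv, fun i j hi hj _ => by omega, fun i hi => by omega⟩
  have hzero : PathIn G U 0 (fun _ => v) := by
    refine ⟨fun _ _ => hv, fun i j hi hj _ => by omega, fun i hi => by omega⟩
  have h2 : 2 ≤ n := by
    by_contra hlt
    have : n = 0 ∨ n = 1 := by omega
    rcases this with e | e
    · rw [e] at hn1; exact hn1 _ hzero
    · rw [e] at hn1; exact hn1 _ hone
  have h3 : ¬ (∀ q, ¬ PathIn G U (n - 1) q) := Nat.find_min hex (by omega)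
  push Not at h3
  obtain ⟨q, hq⟩ := h3
  refine ⟨n - 1, q, hq, ?_, by omega, by omega⟩
  intro q' hq'
  have e : n - 1 + 1 = n := by omega
  rw [e] at hq'
  exact hn1 _ hq'

/-- a vertex off the path adjacent to the path -/
lemma exists_off (hconn : ConnIn G U) (h : PathIn G U m p) (h1 : 1 ≤ m) (hm : m < U.card) :
    ∃ w ∈ U, (∀ i, i < m → p i ≠ w) ∧ ∃ a, a < m ∧ G.Adj w (p a) := by
  classical
  have hcard : ((Finset.range m).image p).card = m := by
    rw [Finset.card_image_of_injOn, Finset.card_range]
    intro i hi j hj hij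
    exact h.2.1 i j (by simpa using hi) (by simpa using hj) hij
  obtain ⟨a, ha, b, hb, hbn, hab⟩ := hconn ((Finset.range m).image p) (by
      intro v hv
      rw [Finset.mem_image] at hv
      obtain ⟨i, hi, rfl⟩ := hv
      exact h.1 i (by simpa using hi)) ⟨p 0, Finset.mem_image_of_mem _ (Finset.mem_range.2 (by omega))⟩ (by
      intro e
      rw [e] at hcard
      omega)
  rw [Finset.mem_image] at ha
  obtain ⟨i, hi, rfl⟩ := ha
  refine ⟨b, hb, fun j hj e => hbn ?_, i, by simpa using hi, hab.symm⟩
  rw [← e]
  exact Finset.mem_image_of_mem _ (by simpa using hj)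

end

/-- The main relative statement. -/
lemma main_rel (G : SimpleGraph V) (k : ℕ) (hk : 2 ≤ k) : ∀ n, ∀ U : Finset V, U.card = n →
    U.Nonempty → ConnIn G U → (∃ v0, ∀ v ∈ U, v ≠ v0 → k ≤ dg G U v) →
    (∀ q, ¬ PathIn G U U.card q) → ∃ W S : Finset V, Cert G W S ∧ k + 2 ≤ S.card := by
  classical
  intro n
  induction n with
  | zero =>
    intro U hU hne
    rw [Finset.card_eq_zero] at hU
    simp [hU] at hne
  | succ n ih =>
    intro U hU hne hconn hv0 hno
    obtain ⟨v0, hv0⟩ := hv0
    obtain ⟨m, p, hp, hmax, hm1, hmU⟩ := exists_longest hne hno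
    by_cases hall : ∀ v ∈ U, 2 ≤ dg G U v
    · obtain ⟨w, hwU, hw, a, ha, hwa⟩ := exists_off hconn hp hm1 hmU
      by_cases h0 : p 0 = v0
      · have ha0 : a ≠ 0 := by
          rintro rfl
          exact no_adj_head hp hmax hwU hw hwa
        have hne' : p (m - 1) ≠ v0 := by
          rw [← h0]
          intro e
          have := hp.2.1 _ _ (by omega) (by omega) e
          omega
        obtain ⟨W, S, hWS, hS⟩ := lemmaA hp.rev hmax hwU (fun i hi => hw _ (by omega))
          (a := m - 1 - a) (by omega) (by
            have e : m - 1 - (m - 1 - a) = a := by omega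
            simpa [e] using hwa) hall
        refine ⟨W, S, hWS, ?_⟩
        have := hv0 _ (hp.1 (m - 1) (by omega)) hne'
        simp only [Nat.sub_zero] at hS
        omega
      · obtain ⟨W, S, hWS, hS⟩ := lemmaA hp hmax hwU hw ha hwa hall
        refine ⟨W, S, hWS, ?_⟩
        have := hv0 _ (hp.1 0 (by omega)) h0
        omega
    · push Not at hall
      obtain ⟨v, hvU, hvd⟩ := hall
      have hvv0 : v = v0 := by
        by_contra e
        have := hv0 v hvU e
        omega
      -- the unique neighbour of `v`
      have hU2 : 2 ≤ U.card := by omega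
      obtain ⟨a', ha', u, huU, hua, hvu⟩ := hconn {v} (by simpa using hvU) ⟨v, by simp⟩ (by
        intro e
        have : ({v} : Finset V).card = U.card := by rw [e]
        rw [Finset.card_singleton] at this
        omega)
      rw [Finset.mem_singleton] at ha' hua
      subst ha'
      have huniq : ∀ u' ∈ U, G.Adj a' u' → u' = u := by
        intro u' hu' hadj
        unfold dg at hvd
        have hle : (U.filter (G.Adj a')).card ≤ 1 := by omega
        rw [Finset.card_le_one] at hle
        exact hle u' (by simp [hu', hadj]) u (by simp [huU, hvu])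
      have hU'card : (U.erase a').card = n := by
        rw [Finset.card_erase_of_mem hvU]; omega
      have hconn' : ConnIn G (U.erase a') := by
        intro X hX hXne hXU
        by_cases huX : u ∈ X
        · obtain ⟨a, ha, b, hb, hbX, hab⟩ := hconn (insert a' X) (by
              intro x hx
              rw [Finset.mem_insert] at hx
              rcases hx with rfl | hx
              · exact hvU
              · exact Finset.mem_of_mem_erase (hX hx)) ⟨a', by simp⟩ (by
              intro e
              apply hXU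
              rw [← e, Finset.erase_insert]
              intro hmem
              exact (Finset.mem_erase.1 (hX hmem)).1 rfl)
          rw [Finset.mem_insert, not_or] at hbX
          rw [Finset.mem_insert] at ha
          rcases ha with rfl | ha
          · exact absurd (huniq b hb hab ▸ huX) hbX.2
          · exact ⟨a, ha, b, Finset.mem_erase.2 ⟨hbX.1, hb⟩, hbX.2, hab⟩
        · obtain ⟨a, ha, b, hb, hbX, hab⟩ := hconn X (hX.trans (Finset.erase_subset _ _)) hXne (by
              intro e
              rw [e] at huX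
              exact huX huU)
          refine ⟨a, ha, b, Finset.mem_erase.2 ⟨?_, hb⟩, hbX, hab⟩
          rintro rfl
          have := huniq a (Finset.mem_of_mem_erase (hX ha)) hab.symm
          exact huX (this ▸ ha)
      have hdeg' : ∀ x ∈ U.erase a', x ≠ u → k ≤ dg G (U.erase a') x := by
        intro x hx hxu
        have hx' := Finset.mem_erase.1 hx
        have hkx := hv0 x hx'.2 (by rw [← hvv0]; exact hx'.1)
        have e : (U.erase a').filter (G.Adj x) = U.filter (G.Adj x) := by
          ext y
          simp only [Finset.mem_filter, Finset.mem_erase]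
          constructor
          · rintro ⟨⟨_, h2⟩, h3⟩; exact ⟨h2, h3⟩
          · rintro ⟨h2, h3⟩
            refine ⟨⟨?_, h2⟩, h3⟩
            rintro rfl
            exact hxu (huniq x hx'.2 h3.symm)
        unfold dg at hkx ⊢
        rw [e]
        exact hkx
      by_cases hq : ∀ q, ¬ PathIn G (U.erase a') (U.erase a').card q
      · exact ih (U.erase a') hU'card ⟨u, Finset.mem_erase.2 ⟨hua, huU⟩⟩ hconn' ⟨u, hdeg'⟩ hq
      · push Not at hq
        obtain ⟨q, hq⟩ := hq
        rw [hU'card] at hq
        have hqU : PathIn G U n q := hq.mono (Finset.erase_subset _ _)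
        have hqmax : Longest G U n := by
          intro r hr
          rw [← hU] at hr
          exact hno r hr
        have hqv : ∀ i, i < n → q i ≠ a' := fun i hi => (Finset.mem_erase.1 (hq.1 i hi)).1
        -- `u` is on the path
        have hsurj : ∃ a, a < n ∧ q a = u := by
          have hcard : ((Finset.range n).image q).card = n := by
            rw [Finset.card_image_of_injOn, Finset.card_range]
            intro i hi j hj hij
            exact hq.2.1 i j (by simpa using hi) (by simpa using hj) hij
          have hsub : (Finset.range n).image q ⊆ U.erase a' := by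
            intro x hx
            rw [Finset.mem_image] at hx
            obtain ⟨i, hi, rfl⟩ := hx
            exact hq.1 i (by simpa using hi)
          have heq := Finset.eq_of_subset_of_card_le hsub (by rw [hcard, hU'card])
          have hu' : u ∈ U.erase a' := Finset.mem_erase.2 ⟨hua, huU⟩
          rw [← heq, Finset.mem_image] at hu'
          obtain ⟨i, hi, hi'⟩ := hu'
          exact ⟨i, by simpa using hi, hi'⟩
        obtain ⟨a, ha, rfl⟩ := hsurj
        exact lemmaB hqU hqmax hvU hqv ha hvu hk
          (hv0 _ (hqU.1 0 (by omega)) (by rw [← hvv0]; exact hqv _ (by omega)))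
          (hv0 _ (hqU.1 (n - 1) (by omega)) (by rw [← hvv0]; exact hqv _ (by omega)))

/-- the small case: always at least three leaves -/
lemma small (G : SimpleGraph V) (U : Finset V) (hne : U.Nonempty) (hconn : ConnIn G U)
    (hno : ∀ q, ¬ PathIn G U U.card q) : ∃ W S : Finset V, Cert G W S ∧ 3 ≤ S.card := by
  classical
  obtain ⟨m, p, hp, hmax, hm1, hmU⟩ := exists_longest hne hno
  obtain ⟨w, hwU, hw, a, ha, hwa⟩ := exists_off hconn hp hm1 hmU
  have ha0 : a ≠ 0 := by
    rintro rfl
    exact no_adj_head hp hmax hwU hw hwa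
  have ha1 : a ≠ m - 1 := by
    rintro rfl
    exact no_adj_last hp hmax hwU hw hwa
  obtain ⟨h1, h2, h3⟩ := id hp
  have hWmem : ∀ v, v ∈ (Finset.Ico 1 (m - 1)).image p ↔ ∃ i, 1 ≤ i ∧ i < m - 1 ∧ p i = v := by
    intro v
    simp only [Finset.mem_image, Finset.mem_Ico, and_assoc]
  refine ⟨(Finset.Ico 1 (m - 1)).image p, {w, p 0, p (m - 1)}, ⟨?_, ?_, ?_⟩, ?_⟩
  · rw [Finset.disjoint_left]
    intro v hv hvS
    obtain ⟨i, hi1, hi2, rfl⟩ := (hWmem _).1 hv
    simp only [Finset.mem_insert, Finset.mem_singleton] at hvS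
    rcases hvS with h' | h' | h'
    · exact hw i (by omega) h'
    · have := h2 _ _ (by omega) (by omega) h'; omega
    · have := h2 _ _ (by omega) (by omega) h'; omega
  · intro s hs
    simp only [Finset.mem_insert, Finset.mem_singleton] at hs
    rcases hs with rfl | rfl | rfl
    · exact ⟨p a, (hWmem _).2 ⟨a, by omega, by omega, rfl⟩, hwa⟩
    · exact ⟨p 1, (hWmem _).2 ⟨1, by omega, by omega, rfl⟩, h3 0 (by omega)⟩
    · refine ⟨p (m - 2), (hWmem _).2 ⟨m - 2, by omega, by omega, rfl⟩, ?_⟩
      have := h3 (m - 2) (by omega)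
      have e : m - 2 + 1 = m - 1 := by omega
      rw [e] at this
      exact this.symm
  · refine ⟨p 1, (hWmem _).2 ⟨1, by omega, by omega, rfl⟩, ?_⟩
    have hex : ∃ hgt : V → ℕ, ∀ i, i < m → hgt (p i) = i := by
      refine ⟨fun v => if hv : ∃ i, i < m ∧ p i = v then hv.choose else 0, ?_⟩
      intro i hi
      have hv : ∃ k, k < m ∧ p k = p i := ⟨i, hi, rfl⟩
      dsimp only
      rw [dif_pos hv]
      exact h2 _ _ hv.choose_spec.1 hi hv.choose_spec.2
    obtain ⟨hgt, hhgt⟩ := hex
    refine ⟨hgt, ?_⟩
    intro v hv hv0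
    obtain ⟨i, hi1, hi2, rfl⟩ := (hWmem _).1 hv
    have hi0 : i ≠ 1 := by rintro rfl; exact hv0 rfl
    refine ⟨p (i - 1), (hWmem _).2 ⟨i - 1, by omega, by omega, rfl⟩, ?_, ?_⟩
    · have := h3 (i - 1) (by omega)
      have e : i - 1 + 1 = i := by omega
      rw [e] at this
      exact this.symm
    · rw [hhgt (i - 1) (by omega), hhgt i (by omega)]
      omega
  · have hn1 : p 0 ∉ ({p (m - 1)} : Finset V) := by
      rw [Finset.mem_singleton]
      intro e
      have := h2 _ _ (by omega) (by omega) e
      omega
    have hn2 : w ∉ ({p 0, p (m - 1)} : Finset V) := by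
      simp only [Finset.mem_insert, Finset.mem_singleton, not_or]
      exact ⟨(hw _ (by omega)).symm, (hw _ (by omega)).symm⟩
    rw [Finset.card_insert_of_notMem hn2, Finset.card_insert_of_notMem hn1,
      Finset.card_singleton]

/-! ## From certificates to spanning trees -/

lemma connIn_univ [Fintype V] {G : SimpleGraph V} (hG : G.Connected) :
    ConnIn G (Finset.univ : Finset V) := by
  intro X _ hne hX
  obtain ⟨a, ha⟩ := hne
  have : ∃ b, b ∉ X := by
    by_contra hcon
    push Not at hcon
    exact hX (Finset.eq_univ_of_forall hcon)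
  obtain ⟨b, hb⟩ := this
  obtain ⟨p⟩ := hG.preconnected a b
  obtain ⟨d, _, hd1, hd2⟩ := p.exists_boundary_dart (X : Set V) (by simpa using ha)
    (by simpa using hb)
  exact ⟨d.fst, by simpa using hd1, d.snd, Finset.mem_univ _, by simpa using hd2, d.adj⟩

lemma extend [Fintype V] [DecidableEq V] {G : SimpleGraph V} (hG : ConnIn G Finset.univ) :
    ∀ n, ∀ W S : Finset V, Cert G W S → (W ∪ S).card + n = Fintype.card V →
    ∃ W' S' : Finset V, Cert G W' S' ∧ S.card ≤ S'.card ∧ W' ∪ S' = Finset.univ := by
  intro n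
  induction n with
  | zero =>
    intro W S h hc
    refine ⟨W, S, h, le_rfl, ?_⟩
    rw [← Finset.card_eq_iff_eq_univ]
    omega
  | succ n ih =>
    intro W S h hc
    obtain ⟨hdis, hS, r, hr, hgt, hh⟩ := h
    obtain ⟨a, ha, b, _, hb, hab⟩ := hG (W ∪ S) (Finset.subset_univ _)
      ⟨r, Finset.mem_union_left _ hr⟩ (by
        intro e
        rw [e, Finset.card_univ] at hc
        omega)
    rw [Finset.mem_union, not_or] at hb
    rw [Finset.mem_union] at ha
    have hcard : ∀ W' S' : Finset V, W' ∪ S' = insert b (W ∪ S) →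
        (W' ∪ S').card + n = Fintype.card V := by
      intro W' S' e
      rw [e, Finset.card_insert_of_notMem (by rw [Finset.mem_union, not_or]; exact hb)]
      omega
    by_cases haW : a ∈ W
    · have hC : Cert G W (insert b S) := by
        refine ⟨?_, ?_, r, hr, hgt, hh⟩
        · rw [Finset.disjoint_insert_right]
          exact ⟨hb.1, hdis⟩
        · intro s hs
          rw [Finset.mem_insert] at hs
          rcases hs with rfl | hs
          · exact ⟨a, haW, hab.symm⟩
          · exact hS s hs
      obtain ⟨W', S', h1, h2, h3⟩ := ih W (insert b S) hC (hcard _ _ (by ext x; simp))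
      refine ⟨W', S', h1, ?_, h3⟩
      rw [Finset.card_insert_of_notMem hb.2] at h2
      omega
    · have haS : a ∈ S := ha.resolve_left haW
      obtain ⟨u0, hu0, hau0⟩ := hS a haS
      have hba : b ≠ a := by
        rintro rfl
        exact G.loopless.irrefl _ hab
      have hC : Cert G (insert a W) (insert b (S.erase a)) := by
        refine ⟨?_, ?_, ?_⟩
        · rw [Finset.disjoint_left] at hdis ⊢
          intro x hx hx'
          rw [Finset.mem_insert] at hx hx'
          rw [Finset.mem_erase] at hx'
          rcases hx with rfl | hx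
          · rcases hx' with h' | h'
            · exact hba h'.symm
            · exact h'.1 rfl
          · rcases hx' with rfl | h'
            · exact hb.1 hx
            · exact hdis hx h'.2
        · intro s hs
          rw [Finset.mem_insert, Finset.mem_erase] at hs
          rcases hs with rfl | hs
          · exact ⟨a, Finset.mem_insert_self _ _, hab.symm⟩
          · obtain ⟨u, hu, hsu⟩ := hS s hs.2
            exact ⟨u, Finset.mem_insert_of_mem hu, hsu⟩
        · refine ⟨r, Finset.mem_insert_of_mem hr, Function.update hgt a (hgt u0 + 1), ?_⟩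
          intro v hv hvr
          rw [Finset.mem_insert] at hv
          by_cases hva : v = a
          · subst hva
            refine ⟨u0, Finset.mem_insert_of_mem hu0, hau0, ?_⟩
            have : u0 ≠ v := by rintro rfl; exact haW hu0
            rw [Function.update_of_ne this, Function.update_self]
            omega
          · obtain ⟨u, hu, hvu, hlt⟩ := hh v (hv.resolve_left hva) hvr
            refine ⟨u, Finset.mem_insert_of_mem hu, hvu, ?_⟩
            have : u ≠ a := by rintro rfl; exact haW hu
            rw [Function.update_of_ne this, Function.update_of_ne hva]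
            exact hlt
      obtain ⟨W', S', h1, h2, h3⟩ := ih (insert a W) (insert b (S.erase a)) hC
        (hcard _ _ (by
          ext x
          simp only [Finset.mem_union, Finset.mem_insert, Finset.mem_erase]
          by_cases hxa : x = a
          · subst hxa; simp [haS]
          · simp only [hxa, false_or, ne_eq, not_false_eq_true, true_and]; tauto))
      refine ⟨W', S', h1, ?_, h3⟩
      rw [Finset.card_insert_of_notMem (by
        rw [Finset.mem_erase]; exact fun h' => hb.2 h'.2), Finset.card_erase_of_mem haS] at h2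
      have : 0 < S.card := Finset.card_pos.2 ⟨a, haS⟩
      omega

lemma exists_tree [Fintype V] [DecidableEq V] {G : SimpleGraph V} {W S : Finset V}
    (h : Cert G W S) (hun : W ∪ S = Finset.univ) :
    ∃ T : SimpleGraph V, T ≤ G ∧ T.IsTree ∧ S.card ≤ numLeaves T := by
  obtain ⟨hdis, hS, r, hr, hgt, hh⟩ := h
  have hrS : r ∉ S := fun h' => Finset.disjoint_left.1 hdis hr h'
  have hpar : ∃ par : V → V, (∀ v, v ≠ r → par v ∈ W ∧ G.Adj v (par v)) ∧
      (∀ v ∈ W, v ≠ r → hgt (par v) < hgt v) := by
    have : ∀ v, ∃ u, (v ≠ r → u ∈ W ∧ G.Adj v u) ∧ (v ∈ W → v ≠ r → hgt u < hgt v) := by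
      intro v
      by_cases hvW : v ∈ W
      · by_cases hvr : v = r
        · exact ⟨v, fun h' => absurd hvr h', fun _ h' => absurd hvr h'⟩
        · obtain ⟨u, hu, hvu, hlt⟩ := hh v hvW hvr
          exact ⟨u, fun _ => ⟨hu, hvu⟩, fun _ _ => hlt⟩
      · have hvS : v ∈ S := by
          have := Finset.mem_univ v
          rw [← hun, Finset.mem_union] at this
          exact this.resolve_left hvW
        obtain ⟨u, hu, hvu⟩ := hS v hvS
        exact ⟨u, fun _ => ⟨hu, hvu⟩, fun h' => absurd h' hvW⟩
    choose par hpar1 hpar2 using this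
    exact ⟨par, hpar1, fun v hv => hpar2 v hv⟩
  obtain ⟨par, hpar1, hpar2⟩ := hpar
  let H : SimpleGraph V := SimpleGraph.fromRel (fun a b => a ≠ r ∧ b = par a)
  have hHadj : ∀ a b, H.Adj a b ↔ a ≠ b ∧ ((a ≠ r ∧ b = par a) ∨ (b ≠ r ∧ a = par b)) := by
    intro a b
    exact SimpleGraph.fromRel_adj _ a b
  have hHG : H ≤ G := by
    intro a b hab
    rw [hHadj] at hab
    rcases hab.2 with ⟨h1, rfl⟩ | ⟨h1, rfl⟩
    · exact (hpar1 a h1).2
    · exact (hpar1 b h1).2.symm
  have hHpar : ∀ v, v ≠ r → H.Adj v (par v) := by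
    intro v hv
    rw [hHadj]
    exact ⟨(hpar1 v hv).2.ne, Or.inl ⟨hv, rfl⟩⟩
  have hreachW : ∀ n, ∀ v ∈ W, hgt v = n → H.Reachable v r := by
    intro n
    induction n using Nat.strong_induction_on with
    | _ n ih =>
      intro v hv hvn
      by_cases hvr : v = r
      · rw [hvr]
      · exact (hHpar v hvr).reachable.trans
          (ih _ (by rw [← hvn]; exact hpar2 v hv hvr) (par v) (hpar1 v hvr).1 rfl)
  have hreach : ∀ v, H.Reachable v r := by
    intro v
    by_cases hvr : v = r
    · rw [hvr]
    · exact (hHpar v hvr).reachable.trans (hreachW _ _ (hpar1 v hvr).1 rfl)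
  have hHconn : H.Connected := by
    rw [SimpleGraph.connected_iff_exists_forall_reachable]
    exact ⟨r, fun v => (hreach v).symm⟩
  obtain ⟨T, hTH, hT⟩ := hHconn.exists_isTree_le
  refine ⟨T, hTH.trans hHG, hT, ?_⟩
  unfold numLeaves
  rw [← Set.ncard_coe_finset S]
  apply Set.ncard_le_ncard _ (Set.toFinite _)
  intro s hs
  have hs' : s ∈ S := by simpa using hs
  have hsr : s ≠ r := by rintro rfl; exact hrS hs'
  have hsW : s ∉ W := fun h' => Finset.disjoint_left.1 hdis h' hs'
  rw [Set.mem_ofPred_eq, Set.ncard_eq_one]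
  have huniq : ∀ b, T.Adj s b → b = par s := by
    intro b hb
    have hb' := hTH hb
    rw [hHadj] at hb'
    rcases hb'.2 with ⟨_, h2⟩ | ⟨h1, h2⟩
    · exact h2
    · exact absurd (h2 ▸ (hpar1 b h1).1) hsW
  have hex : ∃ b, T.Adj s b := by
    obtain ⟨w⟩ := hT.connected.preconnected s r
    cases w with
    | nil => exact absurd rfl hsr
    | cons hadj _ => exact ⟨_, hadj⟩
  obtain ⟨b, hb⟩ := hex
  refine ⟨par s, ?_⟩
  ext x
  rw [SimpleGraph.mem_neighborSet, Set.mem_singleton_iff]
  constructor
  · exact huniq x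
  · rintro rfl
    rw [← huniq b hb]; exact hb

/-! ## The second smallest degree -/

lemma secondMinDegree_spec [Fintype V] (G : SimpleGraph V) (h2 : 2 ≤ Fintype.card V) :
    ∃ v0, ∀ v, v ≠ v0 → secondMinDegree G ≤ dg G Finset.univ v := by
  classical
  have hne : Nonempty V := Fintype.card_pos_iff.1 (by omega)
  set k := secondMinDegree G with hk
  set l := degSeq G with hl
  have hlM : (l : Multiset ℕ) = Finset.univ.val.map (fun v => G.degree v) := by
    rw [hl]; unfold degSeq
    convert Multiset.sort_eq _ _
  have hsort : l.Pairwise (· ≥ ·) := by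
    rw [hl]; unfold degSeq
    exact Multiset.pairwise_sort _ _
  have hlen : l.length = Fintype.card V := by
    have : (l : Multiset ℕ).card = Fintype.card V := by
      rw [hlM, Multiset.card_map]; rfl
    simpa using this
  have hkl : k = l.getD (Fintype.card V - 2) 0 := rfl
  have hcount : l.countP (fun x => decide (x < k)) ≤ 1 := by
    have hsplit : l = l.take (Fintype.card V - 1) ++ l.drop (Fintype.card V - 1) :=
      (List.take_append_drop _ _).symm
    rw [hsplit, List.countP_append]
    have h0 : (l.take (Fintype.card V - 1)).countP (fun x => decide (x < k)) = 0 := by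
      rw [List.countP_eq_zero]
      intro x hx
      simp only [decide_eq_true_eq, not_lt]
      rw [List.mem_take_iff_getElem] at hx
      obtain ⟨i, hi, rfl⟩ := hx
      have hi' : i < Fintype.card V - 1 := by omega
      rw [hkl, List.getD_eq_getElem _ _ (by omega)]
      rw [List.pairwise_iff_getElem] at hsort
      rcases Nat.lt_or_ge i (Fintype.card V - 2) with hlt | hge
      · exact hsort i (Fintype.card V - 2) (by omega) (by omega) hlt
      · have : i = Fintype.card V - 2 := by omega
        subst this
        exact le_rfl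
    have h1 : (l.drop (Fintype.card V - 1)).countP (fun x => decide (x < k)) ≤ 1 := by
      refine List.countP_le_length.trans ?_
      rw [List.length_drop]
      omega
    omega
  have hfil : (Finset.univ.filter (fun v => G.degree v < k)).card ≤ 1 := by
    have e : (Finset.univ.filter (fun v => G.degree v < k)).card =
        (l : Multiset ℕ).countP (fun x => x < k) := by
      rw [hlM, Multiset.countP_map]
      rfl
    rw [e]
    simpa using hcount
  rw [Finset.card_le_one_iff_subset_singleton] at hfil
  obtain ⟨v0, hv0⟩ := hfil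
  refine ⟨v0, fun v hv => ?_⟩
  by_contra hlt
  have hdgv : dg G Finset.univ v = G.degree v := by
    unfold dg
    rw [← SimpleGraph.card_neighborFinset_eq_degree]
    congr 1
    ext x
    simp
  rw [hdgv] at hlt
  have := hv0 (Finset.mem_filter.2 ⟨Finset.mem_univ v, by omega⟩)
  rw [Finset.mem_singleton] at this
  exact hv this

/-! ## The theorem -/

/-- **Graffiti.pc (2006).** Every connected graph `G` with at least two vertices and
`L(G) ≤ δ'(G) + 1` has a Hamiltonian path. -/
theorem result {V : Type u} [Fintype V] [DecidableEq V] (G : SimpleGraph V) (hG : G.Connected)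
    (h2 : 2 ≤ Fintype.card V) (hL : leafNumber G ≤ secondMinDegree G + 1) :
    ∃ (a b : V) (p : G.Walk a b), p.IsHamiltonian := by
  by_cases hex : ∃ q, PathIn G Finset.univ (Finset.univ : Finset V).card q
  · obtain ⟨q, hq1, hq2, hq3⟩ := hex
    rw [Finset.card_univ] at hq1 hq2 hq3
    have hne : (List.ofFn (fun i : Fin (Fintype.card V) => q i)) ≠ [] := by
      intro e
      have := congrArg List.length e
      rw [List.length_ofFn] at this
      simp at this
      omega
    have hchain : (List.ofFn (fun i : Fin (Fintype.card V) => q i)).IsChain G.Adj := by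
      rw [List.isChain_iff_getElem]
      intro i hi
      rw [List.length_ofFn] at hi
      simp only [List.getElem_ofFn]
      exact hq3 i hi
    refine ⟨_, _, SimpleGraph.Walk.ofSupport _ hne hchain, ?_⟩
    intro a
    rw [SimpleGraph.Walk.support_ofSupport]
    have hnd : (List.ofFn (fun i : Fin (Fintype.card V) => q i)).Nodup := by
      rw [List.nodup_ofFn]
      intro i j hij
      exact Fin.ext (hq2 i j i.2 j.2 hij)
    rw [hnd.count, if_pos]
    rw [List.mem_ofFn]
    have hinj : Function.Injective (fun i : Fin (Fintype.card V) => q i) := by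
      intro i j hij
      exact Fin.ext (hq2 i j i.2 j.2 hij)
    have hbij : Function.Bijective (fun i : Fin (Fintype.card V) => q i) := by
      rw [Fintype.bijective_iff_injective_and_card]
      exact ⟨hinj, by simp⟩
    exact hbij.2 a
  · exfalso
    push Not at hex
    have hne : (Finset.univ : Finset V).Nonempty := by
      rw [← Finset.card_pos, Finset.card_univ]; omega
    have hconn := connIn_univ hG
    obtain ⟨v0, hv0⟩ := secondMinDegree_spec G h2
    have hcert : ∃ W S : Finset V, Cert G W S ∧ secondMinDegree G + 2 ≤ S.card := by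
      by_cases hk : 2 ≤ secondMinDegree G
      · exact main_rel G _ hk _ Finset.univ rfl hne hconn ⟨v0, fun v _ hv => hv0 v hv⟩ hex
      · obtain ⟨W, S, h1, h2⟩ := small G Finset.univ hne hconn hex
        exact ⟨W, S, h1, by omega⟩
    obtain ⟨W, S, hWS, hS⟩ := hcert
    obtain ⟨W', S', h1, h2', h3⟩ := extend hconn (Fintype.card V - (W ∪ S).card) W S hWS (by
      have := Finset.card_le_univ (W ∪ S)
      omega)
    obtain ⟨T, hT1, hT2, hT3⟩ := exists_tree h1 h3
    have hle : numLeaves T ≤ leafNumber G := by
      unfold leafNumber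
      apply le_csSup
      · refine ⟨Fintype.card V, ?_⟩
        rintro l ⟨T', _, _, rfl⟩
        unfold numLeaves
        have := Set.ncard_le_ncard (Set.subset_univ {v : V | (T'.neighborSet v).ncard = 1})
          (Set.toFinite _)
        rwa [Set.ncard_univ, Nat.card_eq_fintype_card] at this
      · exact ⟨T, hT1, hT2, rfl⟩
    omega

end Pool.Agent.Results.MP_95a718_co.Graffiti
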